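import Pool.Agent.Helper18.RD.Stmts6

/-! # Row BADN of RD6 -/

set_option autoImplicit false

namespace Pool.Agent.Helper18.RD

open Finset

theorem st_BADN (hB : ST_BDJ) : ST_BADN := by
  classical
  intro K j hK
  obtain ⟨C₁, hC₁, hB⟩ := hB K hK
  have h2 : (1 : ℝ) ≤ (2 : ℝ) ^ ((j + 2) * (2 * K)) := one_le_pow₀ (by norm_num)
  have h16 : (1 : ℝ) ≤ (16 : ℝ) ^ j := one_le_pow₀ (by norm_num)
  have h4j : (0 : ℝ) < (4 * ((j : ℝ) + 1)) ^ (2 * K) := by positivity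
  set A : ℝ := C₁ * (2 : ℝ) ^ ((j + 2) * (2 * K)) with hA
  have hA0 : 0 < A := by positivity
  refine ⟨A * (16 : ℝ) ^ j + (4 * ((j : ℝ) + 1)) ^ (2 * K), by positivity, ?_⟩
  set C : ℝ := A * (16 : ℝ) ^ j + (4 * ((j : ℝ) + 1)) ^ (2 * K) with hC
  have hC0 : 0 < C := by positivity
  have hCA16 : A * (16 : ℝ) ^ j ≤ C := by linarith
  have hCA : A ≤ C := by nlinarith
  have hC4 : (4 * ((j : ℝ) + 1)) ^ (2 * K) ≤ C := by
    have : 0 < A * (16 : ℝ) ^ j := by positivity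
    linarith
  intro N q P y D S e c d k w m hN hq hy hD hdat hdatN h1 hPD h3 hNP
  have hD0 : (0 : ℝ) < D := by linarith
  have hN1 : (1 : ℝ) ≤ (N : ℝ) := by exact_mod_cast hN
  have hN8 : (1 : ℝ) ≤ (N : ℝ) ^ 8 := one_le_pow₀ hN1
  have hDK : (0 : ℝ) < D ^ (2 * K) := by positivity
  -- the number of primes is at least 4 (j + 1)
  have hPc : 4 * ((j : ℝ) + 1) ≤ ((PP q P).card : ℝ) := by
    have hlt : (4 * ((j : ℝ) + 1) * D) ^ (2 * K) ≤ (P : ℝ) ^ (2 * K) := by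
      rw [mul_pow]
      calc (4 * ((j : ℝ) + 1)) ^ (2 * K) * D ^ (2 * K) ≤ C * D ^ (2 * K) :=
            mul_le_mul_of_nonneg_right hC4 hDK.le
        _ ≤ C * (N : ℝ) ^ 8 * D ^ (2 * K) := by
            have : C ≤ C * (N : ℝ) ^ 8 := le_mul_of_one_le_right hC0.le hN8
            exact mul_le_mul_of_nonneg_right this hDK.le
        _ ≤ (P : ℝ) ^ (2 * K) := h1
    have hle : 4 * ((j : ℝ) + 1) * D ≤ (P : ℝ) :=
      le_of_pow_le_pow_left₀ (by omega) (Nat.cast_nonneg P) hlt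
    have h5 : 4 * ((j : ℝ) + 1) * D ≤ ((PP q P).card : ℝ) * D := by linarith
    exact le_of_mul_le_mul_right h5 hD0
  have hPn : 4 * (j + 1) ≤ (PP q P).card := by exact_mod_cast hPc
  refine ⟨(PP q P).card / 2 ^ (j + 2), ?_, ?_⟩
  · have hb : (PP q P).card / 2 ^ (j + 2) * 2 ^ (j + 2) ≤ (PP q P).card := Nat.div_mul_le_self _ _
    have hpow : (2 : ℕ) ^ (j + 2) = 4 * 2 ^ j := by rw [pow_add]; ring
    set b := (PP q P).card / 2 ^ (j + 2) with hbdef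
    rw [hpow] at hb
    nlinarith
  · intro S' hS' hcard
    by_contra hcon
    push Not at hcon
    set U : Finset ℕ := (PP q P).filter (fun p => ¬ Bal6 e S' p) with hU
    have hUlt : (PP q P).card < 2 ^ (j + 2) * U.card := by
      have h6 := Nat.lt_mul_div_succ (PP q P).card (show 0 < 2 ^ (j + 2) by positivity)
      calc (PP q P).card < 2 ^ (j + 2) * ((PP q P).card / 2 ^ (j + 2) + 1) := h6
        _ ≤ 2 ^ (j + 2) * U.card := Nat.mul_le_mul_left _ hcon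
    have hUr : ((PP q P).card : ℝ) ≤ (2 : ℝ) ^ (j + 2) * (U.card : ℝ) := by
      exact_mod_cast hUlt.le
    have hD' : (1 : ℝ) ≤ (2 : ℝ) ^ (j + 2) * D := by
      have : (1 : ℝ) ≤ (2 : ℝ) ^ (j + 2) := one_le_pow₀ (by norm_num)
      nlinarith
    have hpw : ((2 : ℝ) ^ (j + 2) * D) ^ (2 * K) =
        (2 : ℝ) ^ ((j + 2) * (2 * K)) * D ^ (2 * K) := by
      rw [mul_pow, ← pow_mul]
    have hy0 : (0 : ℝ) ≤ (y : ℝ) := Nat.cast_nonneg y
    refine hB N q P y ((2 : ℝ) ^ (j + 2) * D) S S' U e c d k w m hN hq hy hD' hdat hdatN hS'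
      (Finset.filter_subset _ _) (fun p hp => (Finset.mem_filter.1 hp).2) ?_ ?_ ?_ ?_
    · calc (P : ℝ) ≤ D * (PP q P).card := hPD
        _ ≤ D * ((2 : ℝ) ^ (j + 2) * (U.card : ℝ)) := mul_le_mul_of_nonneg_left hUr hD0.le
        _ = (2 : ℝ) ^ (j + 2) * D * U.card := by ring
    · rw [hpw]
      calc C₁ * (N : ℝ) ^ 8 * ((2 : ℝ) ^ ((j + 2) * (2 * K)) * D ^ (2 * K)) =
            A * ((N : ℝ) ^ 8 * D ^ (2 * K)) := by rw [hA]; ring
        _ ≤ C * ((N : ℝ) ^ 8 * D ^ (2 * K)) :=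
            mul_le_mul_of_nonneg_right hCA (by positivity)
        _ = C * (N : ℝ) ^ 8 * D ^ (2 * K) := by ring
        _ ≤ (P : ℝ) ^ (2 * K) := h1
    · rw [hpw]
      have hc16 : (S.card : ℝ) ≤ (16 : ℝ) ^ j * (S'.card : ℝ) := by exact_mod_cast hcard
      have h7 : (16 : ℝ) ^ j * (C₁ * ((2 : ℝ) ^ ((j + 2) * (2 * K)) * D ^ (2 * K)) * y) ≤
          (16 : ℝ) ^ j * (S'.card : ℝ) := by
        calc (16 : ℝ) ^ j * (C₁ * ((2 : ℝ) ^ ((j + 2) * (2 * K)) * D ^ (2 * K)) * y) =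
              (A * (16 : ℝ) ^ j) * (D ^ (2 * K) * y) := by rw [hA]; ring
          _ ≤ C * (D ^ (2 * K) * y) := mul_le_mul_of_nonneg_right hCA16 (by positivity)
          _ = C * D ^ (2 * K) * y := by ring
          _ ≤ S.card := h3
          _ ≤ (16 : ℝ) ^ j * (S'.card : ℝ) := hc16
      exact le_of_mul_le_mul_left h7 (by positivity)
    · rw [hpw]
      calc C₁ * ((2 : ℝ) ^ ((j + 2) * (2 * K)) * D ^ (2 * K)) * (1 + Real.log N) ^ 2 * y =
            A * (D ^ (2 * K) * (1 + Real.log N) ^ 2 * y) := by rw [hA]; ring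
        _ ≤ C * (D ^ (2 * K) * (1 + Real.log N) ^ 2 * y) :=
            mul_le_mul_of_nonneg_right hCA (by positivity)
        _ = C * D ^ (2 * K) * (1 + Real.log N) ^ 2 * y := by ring
        _ ≤ ((NP q y).card : ℝ) ^ 2 := hNP

end Pool.Agent.Helper18.RD
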